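import Pool.Agent.Helper370_SEPZ.V1
import Pool.Agent.Helper370_SEPZ.V2
import Pool.Agent.Helper370_SEPZ.V3

/-!
# MP_ca000f_co, Q1: the summed gamma-differences of symmetric edge polytopes can be negative

The polytope `P_G` (`edgePolytope`), its `h*`-series (`hStar`) and `2`-connectedness
(`TwoConnected`) are defined in `Pool/Agent/R135/SEPDefs.lean`.

The graph is `G0` of `Pool/Agent/Helper370_SEPZ/Graph.lean`: nine vertices and nineteen edges, namely
`K₅` minus the edge `68` on the vertices `0, 3, 7, 6, 8`, a `K₄` on `1, 4, 2, 5`, and the edges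
`62, 65, 81, 84`. Its gamma-polynomial is `1 + 22 t + 164 t² + 242 t³ + 36 t⁴`. Deleting one of the
six edges between `{0, 3, 7}` and `{6, 8}` raises the last coefficient to `38`, deleting any other
edge leaves it at `36`; so `Z_G(t) = 38 t + 508 t² + 668 t³ - 12 t⁴`.

The numbers of lattice points of the first four dilates of the polytopes are computed in the kernel:
a finite set of lattice vectors is coded by the binary number with ones at the codes of its elements,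
so that Minkowski sums and unions become shifts and bitwise disjunctions of numbers with about
`4 · 10⁷` binary digits, and the ones are counted by masks and remainders modulo `2^24 - 1`.
-/

set_option autoImplicit false
open Finset

namespace Pool.Agent.Results.MP_ca000f_co.SummedGammaNegative

open Pool.Agent.R135.SEP Pool.Agent.Helper370_SEPZ

/-- The `j`-th gamma-coefficient of `h` with respect to the degree `d`: it is computed from the
coefficients `h_0, ..., h_j` by comparing the coefficients of `t^0, ..., t^j` in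
`h(t) = ∑_{l ≤ d/2} γ_l t^l (1 + t)^{d - 2 l}`, that is,
`γ_j = h_j - ∑_{l < j} γ_l * binom (d - 2 l) (j - l)`. For a palindromic polynomial `h` of degree at
most `d` this is the usual gamma-vector (lemma `gammaCoeff_eq` below). -/
noncomputable def gammaCoeff (d : ℕ) (h : PowerSeries ℤ) (j : ℕ) : ℤ :=
  PowerSeries.coeff j h -
    ∑ l : Fin j, gammaCoeff d h l * (((d - 2 * (l : ℕ)).choose (j - l) : ℕ) : ℤ)
termination_by j
decreasing_by exact l.2

/-- The coefficient of `t^j` in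
`Z_G(t) = ∑_{e ∈ E(G)} (γ_{P_G}(t) - γ_{P_{G∖e}}(t))`, for a graph `G` on `n` vertices; here
`d = n - 1` is the dimension of the polytopes. -/
noncomputable def zCoeff {n : ℕ} (G : SimpleGraph (Fin n)) (j : ℕ) : ℤ :=
  ∑ᶠ e ∈ G.edgeSet, (gammaCoeff (n - 1) (hStar (n - 1) (edgePolytope G)) j -
    gammaCoeff (n - 1) (hStar (n - 1) (edgePolytope (G.deleteEdges {e}))) j)

/-- If `h(t) = ∑_{j ≤ d/2} c_j t^j (1 + t)^{d - 2 j}`, then `gammaCoeff` returns the `c_j`. -/
theorem gammaCoeff_eq (d : ℕ) (h : PowerSeries ℤ) (c : ℕ → ℤ)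
    (hc : h = ∑ j ∈ range (d / 2 + 1), PowerSeries.C (c j) * PowerSeries.X ^ j *
      (1 + PowerSeries.X) ^ (d - 2 * j)) (j : ℕ) (hj : j ≤ d / 2) : gammaCoeff d h j = c j := by
  have hcoeff : ∀ i, i ≤ d / 2 → PowerSeries.coeff i h =
      ∑ l ∈ range (i + 1), c l * (((d - 2 * l).choose (i - l) : ℕ) : ℤ) := by
    intro i hi
    rw [hc, map_sum]
    have h1 : ∀ l ∈ range (d / 2 + 1), PowerSeries.coeff i (PowerSeries.C (c l) *
        PowerSeries.X ^ l * (1 + PowerSeries.X) ^ (d - 2 * l)) =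
        if l ≤ i then c l * (((d - 2 * l).choose (i - l) : ℕ) : ℤ) else 0 := by
      intro l _
      rw [mul_assoc, PowerSeries.coeff_C_mul, PowerSeries.coeff_X_pow_mul']
      by_cases hl : l ≤ i
      · rw [if_pos hl, if_pos hl]
        congr 1
        have h2 : ((1 + PowerSeries.X : PowerSeries ℤ)) ^ (d - 2 * l) =
            (((1 + Polynomial.X) ^ (d - 2 * l) : Polynomial ℤ) : PowerSeries ℤ) := by
          push_cast
          simp
        rw [h2, Polynomial.coeff_coe, Polynomial.coeff_one_add_X_pow]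
      · rw [if_neg hl, if_neg hl, mul_zero]
    rw [Finset.sum_congr rfl h1, ← Finset.sum_filter]
    apply Finset.sum_congr _ (fun _ _ => rfl)
    ext l
    rw [Finset.mem_filter, Finset.mem_range, Finset.mem_range]
    omega
  induction j using Nat.strong_induction_on with
  | _ j ih =>
    rw [gammaCoeff, hcoeff j hj, Finset.sum_range_succ, Nat.sub_self, Nat.choose_zero_right]
    have h1 : ∑ l : Fin j, gammaCoeff d h l * (((d - 2 * (l : ℕ)).choose (j - l) : ℕ) : ℤ) =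
        ∑ l ∈ range j, c l * (((d - 2 * l).choose (j - l) : ℕ) : ℤ) := by
      rw [← Fin.sum_univ_eq_sum_range (fun l => c l * (((d - 2 * l).choose (j - l) : ℕ) : ℤ)) j]
      apply Finset.sum_congr rfl
      intro l _
      rw [ih l l.2 (by have := l.2; omega)]
    rw [h1]
    push_cast
    ring

/-- the first five coefficients -/
def C5 (S : PowerSeries ℤ) (c0 c1 c2 c3 c4 : ℤ) : Prop :=
  PowerSeries.coeff 0 S = c0 ∧ PowerSeries.coeff 1 S = c1 ∧ PowerSeries.coeff 2 S = c2 ∧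
    PowerSeries.coeff 3 S = c3 ∧ PowerSeries.coeff 4 S = c4

lemma C5.step {S : PowerSeries ℤ} {c0 c1 c2 c3 c4 : ℤ} (h : C5 S c0 c1 c2 c3 c4) :
    C5 ((1 - PowerSeries.X) * S) c0 (c1 - c0) (c2 - c1) (c3 - c2) (c4 - c3) := by
  obtain ⟨h0, h1, h2, h3, h4⟩ := h
  have key : ∀ k, PowerSeries.coeff (k + 1) ((1 - PowerSeries.X) * S) =
      PowerSeries.coeff (k + 1) S - PowerSeries.coeff k S := by
    intro k
    rw [sub_mul, one_mul, map_sub, PowerSeries.coeff_succ_X_mul]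
  refine ⟨?_, ?_, ?_, ?_, ?_⟩
  · rw [sub_mul, one_mul, map_sub, PowerSeries.coeff_zero_X_mul, sub_zero, h0]
  · rw [key 0, h0, ← h1]
  · rw [key 1, ← h2, ← h1]
  · rw [key 2, ← h3, ← h2]
  · rw [key 3, ← h4, ← h3]

lemma gamma_four {P : Set (Fin 9 → ℝ)} {a b c d e : ℤ} (h : C5 (ehrhartSeries P) a b c d e) :
    gammaCoeff 8 (hStar 8 P) 4 = e - 11 * d + 56 * c - 176 * b + 386 * a := by
  have h9 : hStar 8 P = (1 - PowerSeries.X) * ((1 - PowerSeries.X) * ((1 - PowerSeries.X) *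
      ((1 - PowerSeries.X) * ((1 - PowerSeries.X) * ((1 - PowerSeries.X) *
      ((1 - PowerSeries.X) * ((1 - PowerSeries.X) * ((1 - PowerSeries.X) *
      ehrhartSeries P)))))))) := by
    unfold hStar
    ring
  obtain ⟨g0, g1, g2, g3, g4⟩ := h.step.step.step.step.step.step.step.step.step
  rw [← h9] at g0 g1 g2 g3 g4
  have k0 : gammaCoeff 8 (hStar 8 P) 0 = a := by
    rw [gammaCoeff, g0]
    simp
  have k1 : gammaCoeff 8 (hStar 8 P) 1 = b - 17 * a := by
    rw [gammaCoeff, g1, Fin.sum_univ_one]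
    simp only [Fin.val_zero, k0]
    norm_num
    ring
  have k2 : gammaCoeff 8 (hStar 8 P) 2 = c - 15 * b + 110 * a := by
    rw [gammaCoeff, g2, Fin.sum_univ_two]
    simp only [Fin.val_zero, Fin.val_one, k0, k1]
    norm_num [Nat.choose]
    ring
  have k3 : gammaCoeff 8 (hStar 8 P) 3 = d - 13 * c + 81 * b - 325 * a := by
    rw [gammaCoeff, g3, Fin.sum_univ_three]
    simp only [Fin.val_zero, Fin.val_one, Fin.val_two, k0, k1, k2]
    norm_num [Nat.choose]
    ring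
  rw [gammaCoeff, g4, Fin.sum_univ_four]
  have v3 : ((3 : Fin 4) : ℕ) = 3 := rfl
  simp only [Fin.val_zero, Fin.val_one, Fin.val_two, v3, k0, k1, k2, k3]
  norm_num [Nat.choose]
  ring

lemma coeff_ehrhart {G : SimpleGraph (Fin 9)} (hG : G.Connected) (m : ℕ) :
    PowerSeries.coeff m (ehrhartSeries (edgePolytope G)) = ((SS G m).ncard : ℤ) := by
  unfold ehrhartSeries
  rw [PowerSeries.coeff_mk, ← Nat.card_coe_set_eq]
  congr 1
  apply Nat.card_congr
  apply Equiv.subtypeEquivRight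
  intro z
  exact mem_dilate hG (by norm_num) z m

/-- the gamma-coefficient from the computed numbers -/
lemma gamma_val {G H : SimpleGraph (Fin 9)} (hG : G.Connected) (hH : H.Connected)
    (σ : Equiv.Perm (Fin 9)) (hσ : ∀ a b, H.Adj a b ↔ G.Adj (σ a) (σ b))
    (A : List (Fin 9 × Fin 9)) (hA : ∀ a b, H.Adj a b ↔ (a, b) ∈ A) {b c d e : ℕ}
    (hv : four A = (b, c, d, e)) :
    gammaCoeff 8 (hStar 8 (edgePolytope G)) 4 =
      (e : ℤ) - 11 * d + 56 * c - 176 * b + 386 * 1 := by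
  apply gamma_four
  unfold four at hv
  simp only [Prod.mk.injEq] at hv
  obtain ⟨h1, h2, h3, h4⟩ := hv
  have key : ∀ m : ℕ, m ≤ 4 → PowerSeries.coeff m (ehrhartSeries (edgePolytope G)) =
      ((cnt (lev (shifts A) m) : ℕ) : ℤ) := by
    intro m hm
    rw [coeff_ehrhart hG, ncard_comp σ hσ, ncard_SS hH A hA m hm]
  refine ⟨?_, ?_, ?_, ?_, ?_⟩
  · rw [coeff_ehrhart hG, ncard_zero hG]
    norm_num
  · rw [key 1 (by norm_num), h1]
  · rw [key 2 (by norm_num), h2]
  · rw [key 3 (by norm_num), h3]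
  · rw [key 4 (by norm_num), h4]

lemma gamma_G0 : gammaCoeff 8 (hStar 8 (edgePolytope G0)) 4 = 36 := by
  rw [gamma_val G0_connected G0_connected (Equiv.refl _) (fun a b => Iff.rfl) arcs0 G0_adj v_all]
  norm_num

lemma gamma_del {i j i' j' : Fin 9} (h : G0.Adj i j) (h' : G0.Adj i' j')
    (σ : Equiv.Perm (Fin 9))
    (hσ : ∀ a b, (a, b) ∈ del (i', j') ↔ (σ a, σ b) ∈ del (i, j)) {b c d e : ℕ}
    (hv : four (del (i', j')) = (b, c, d, e)) :
    gammaCoeff 8 (hStar 8 (edgePolytope (G0.deleteEdges {s(i, j)}))) 4 =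
      (e : ℤ) - 11 * d + 56 * c - 176 * b + 386 * 1 :=
  gamma_val (del_connected h) (del_connected h') σ
    (fun a b => by rw [del_adj, del_adj]; exact hσ a b) (del (i', j'))
    (fun a b => del_adj i' j' a b) hv

lemma g_03 : gammaCoeff 8 (hStar 8 (edgePolytope (G0.deleteEdges {s(0, 3)}))) 4 = 36 := by
  rw [gamma_del (i' := 0) (j' := 3) (by decide) (by decide)
    ⟨![0, 1, 2, 3, 4, 5, 6, 7, 8], ![0, 1, 2, 3, 4, 5, 6, 7, 8], by decide, by decide⟩ (by decide) v_03]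
  norm_num

lemma g_06 : gammaCoeff 8 (hStar 8 (edgePolytope (G0.deleteEdges {s(0, 6)}))) 4 = 38 := by
  rw [gamma_del (i' := 0) (j' := 6) (by decide) (by decide)
    ⟨![0, 1, 2, 3, 4, 5, 6, 7, 8], ![0, 1, 2, 3, 4, 5, 6, 7, 8], by decide, by decide⟩ (by decide) v_06]
  norm_num

lemma g_07 : gammaCoeff 8 (hStar 8 (edgePolytope (G0.deleteEdges {s(0, 7)}))) 4 = 36 := by
  rw [gamma_del (i' := 0) (j' := 3) (by decide) (by decide)
    ⟨![0, 1, 2, 7, 4, 5, 6, 3, 8], ![0, 1, 2, 7, 4, 5, 6, 3, 8], by decide, by decide⟩ (by decide) v_03]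
  norm_num

lemma g_08 : gammaCoeff 8 (hStar 8 (edgePolytope (G0.deleteEdges {s(0, 8)}))) 4 = 38 := by
  rw [gamma_del (i' := 0) (j' := 6) (by decide) (by decide)
    ⟨![0, 2, 1, 3, 5, 4, 8, 7, 6], ![0, 2, 1, 3, 5, 4, 8, 7, 6], by decide, by decide⟩ (by decide) v_06]
  norm_num

lemma g_12 : gammaCoeff 8 (hStar 8 (edgePolytope (G0.deleteEdges {s(1, 2)}))) 4 = 36 := by
  rw [gamma_del (i' := 1) (j' := 2) (by decide) (by decide)
    ⟨![0, 1, 2, 3, 4, 5, 6, 7, 8], ![0, 1, 2, 3, 4, 5, 6, 7, 8], by decide, by decide⟩ (by decide) v_12]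
  norm_num

lemma g_14 : gammaCoeff 8 (hStar 8 (edgePolytope (G0.deleteEdges {s(1, 4)}))) 4 = 36 := by
  rw [gamma_del (i' := 1) (j' := 4) (by decide) (by decide)
    ⟨![0, 1, 2, 3, 4, 5, 6, 7, 8], ![0, 1, 2, 3, 4, 5, 6, 7, 8], by decide, by decide⟩ (by decide) v_14]
  norm_num

lemma g_15 : gammaCoeff 8 (hStar 8 (edgePolytope (G0.deleteEdges {s(1, 5)}))) 4 = 36 := by
  rw [gamma_del (i' := 1) (j' := 2) (by decide) (by decide)
    ⟨![0, 1, 5, 3, 4, 2, 6, 7, 8], ![0, 1, 5, 3, 4, 2, 6, 7, 8], by decide, by decide⟩ (by decide) v_12]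
  norm_num

lemma g_18 : gammaCoeff 8 (hStar 8 (edgePolytope (G0.deleteEdges {s(1, 8)}))) 4 = 36 := by
  rw [gamma_del (i' := 1) (j' := 8) (by decide) (by decide)
    ⟨![0, 1, 2, 3, 4, 5, 6, 7, 8], ![0, 1, 2, 3, 4, 5, 6, 7, 8], by decide, by decide⟩ (by decide) v_18]
  norm_num

lemma g_24 : gammaCoeff 8 (hStar 8 (edgePolytope (G0.deleteEdges {s(2, 4)}))) 4 = 36 := by
  rw [gamma_del (i' := 1) (j' := 2) (by decide) (by decide)
    ⟨![0, 2, 4, 3, 5, 1, 8, 7, 6], ![0, 5, 1, 3, 2, 4, 8, 7, 6], by decide, by decide⟩ (by decide) v_12]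
  norm_num

lemma g_25 : gammaCoeff 8 (hStar 8 (edgePolytope (G0.deleteEdges {s(2, 5)}))) 4 = 36 := by
  rw [gamma_del (i' := 1) (j' := 4) (by decide) (by decide)
    ⟨![0, 2, 1, 3, 5, 4, 8, 7, 6], ![0, 2, 1, 3, 5, 4, 8, 7, 6], by decide, by decide⟩ (by decide) v_14]
  norm_num

lemma g_26 : gammaCoeff 8 (hStar 8 (edgePolytope (G0.deleteEdges {s(2, 6)}))) 4 = 36 := by
  rw [gamma_del (i' := 1) (j' := 8) (by decide) (by decide)
    ⟨![0, 2, 1, 3, 5, 4, 8, 7, 6], ![0, 2, 1, 3, 5, 4, 8, 7, 6], by decide, by decide⟩ (by decide) v_18]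
  norm_num

lemma g_36 : gammaCoeff 8 (hStar 8 (edgePolytope (G0.deleteEdges {s(3, 6)}))) 4 = 38 := by
  rw [gamma_del (i' := 0) (j' := 6) (by decide) (by decide)
    ⟨![3, 1, 2, 0, 4, 5, 6, 7, 8], ![3, 1, 2, 0, 4, 5, 6, 7, 8], by decide, by decide⟩ (by decide) v_06]
  norm_num

lemma g_37 : gammaCoeff 8 (hStar 8 (edgePolytope (G0.deleteEdges {s(3, 7)}))) 4 = 36 := by
  rw [gamma_del (i' := 0) (j' := 3) (by decide) (by decide)
    ⟨![3, 1, 2, 7, 4, 5, 6, 0, 8], ![7, 1, 2, 0, 4, 5, 6, 3, 8], by decide, by decide⟩ (by decide) v_03]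
  norm_num

lemma g_38 : gammaCoeff 8 (hStar 8 (edgePolytope (G0.deleteEdges {s(3, 8)}))) 4 = 38 := by
  rw [gamma_del (i' := 0) (j' := 6) (by decide) (by decide)
    ⟨![3, 2, 1, 0, 5, 4, 8, 7, 6], ![3, 2, 1, 0, 5, 4, 8, 7, 6], by decide, by decide⟩ (by decide) v_06]
  norm_num

lemma g_45 : gammaCoeff 8 (hStar 8 (edgePolytope (G0.deleteEdges {s(4, 5)}))) 4 = 36 := by
  rw [gamma_del (i' := 1) (j' := 2) (by decide) (by decide)
    ⟨![0, 4, 5, 3, 1, 2, 6, 7, 8], ![0, 4, 5, 3, 1, 2, 6, 7, 8], by decide, by decide⟩ (by decide) v_12]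
  norm_num

lemma g_48 : gammaCoeff 8 (hStar 8 (edgePolytope (G0.deleteEdges {s(4, 8)}))) 4 = 36 := by
  rw [gamma_del (i' := 1) (j' := 8) (by decide) (by decide)
    ⟨![0, 4, 2, 3, 1, 5, 6, 7, 8], ![0, 4, 2, 3, 1, 5, 6, 7, 8], by decide, by decide⟩ (by decide) v_18]
  norm_num

lemma g_56 : gammaCoeff 8 (hStar 8 (edgePolytope (G0.deleteEdges {s(5, 6)}))) 4 = 36 := by
  rw [gamma_del (i' := 1) (j' := 8) (by decide) (by decide)
    ⟨![0, 5, 1, 3, 2, 4, 8, 7, 6], ![0, 2, 4, 3, 5, 1, 8, 7, 6], by decide, by decide⟩ (by decide) v_18]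
  norm_num

lemma g_67 : gammaCoeff 8 (hStar 8 (edgePolytope (G0.deleteEdges {s(6, 7)}))) 4 = 38 := by
  rw [gamma_del (i' := 0) (j' := 6) (by decide) (by decide)
    ⟨![7, 1, 2, 0, 4, 5, 6, 3, 8], ![3, 1, 2, 7, 4, 5, 6, 0, 8], by decide, by decide⟩ (by decide) v_06]
  norm_num

lemma g_78 : gammaCoeff 8 (hStar 8 (edgePolytope (G0.deleteEdges {s(7, 8)}))) 4 = 38 := by
  rw [gamma_del (i' := 0) (j' := 6) (by decide) (by decide)
    ⟨![7, 2, 1, 0, 5, 4, 8, 3, 6], ![3, 2, 1, 7, 5, 4, 8, 0, 6], by decide, by decide⟩ (by decide) v_06]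
  norm_num

/-- the edges as a finite set -/
def edgeSet0 : Finset (Sym2 (Fin 9)) :=
  {s(0, 3), s(0, 6), s(0, 7), s(0, 8), s(1, 2), s(1, 4), s(1, 5), s(1, 8), s(2, 4), s(2, 5), s(2, 6), s(3, 6), s(3, 7), s(3, 8), s(4, 5), s(4, 8), s(5, 6), s(6, 7), s(7, 8)}

lemma edgeSet_eq : G0.edgeSet = (edgeSet0 : Set (Sym2 (Fin 9))) := by
  ext e
  induction e using Sym2.ind with
  | _ a b =>
    rw [SimpleGraph.mem_edgeSet, Finset.mem_coe]
    revert a b
    decide

/-- **The answer to Q1 of MP_ca000f_co is negative**: there is a `2`-connected graph on nine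
vertices for which the coefficient of `t^4` in `Z_G(t)` is `-12` (here `4 = ⌊d/2⌋` for `d = 8`). -/
theorem result : ∃ G : SimpleGraph (Fin 9), TwoConnected G ∧ zCoeff G 4 = -12 := by
  refine ⟨G0, twoConnected_G0, ?_⟩
  unfold zCoeff
  rw [edgeSet_eq, finsum_mem_coe_finset]
  have h8 : (9 - 1 : ℕ) = 8 := rfl
  rw [h8, gamma_G0]
  unfold edgeSet0
  repeat rw [Finset.sum_insert (by decide)]
  rw [Finset.sum_singleton]
  rw [g_03, g_06, g_07, g_08, g_12, g_14, g_15, g_18, g_24, g_25, g_26, g_36, g_37, g_38, g_45, g_48, g_56, g_67, g_78]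
  norm_num

end Pool.Agent.Results.MP_ca000f_co.SummedGammaNegative
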